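import Pool.Agent.GTO.StmtsB

/-! Squad GTO, row LCZ. -/

namespace Pool.Agent.GTO.H92

open Finset
open scoped Classical

theorem cub_smul (c : Fin 10 → ℝ) (t : ℝ) (v : V) : cub c (t • v) = t ^ 3 * cub c v := by
  simp only [cub, Pi.smul_apply, smul_eq_mul]
  ring

theorem ip_grd_self (c : Fin 10 → ℝ) (v : V) : ip (grd c v) v = 3 * cub c v := by
  simp only [ip, grd, cub, Matrix.cons_val_zero, Matrix.cons_val_one, Matrix.cons_val]
  ring

theorem ip_comb (g u v : V) (s t : ℝ) : ip g (s • u + t • v) = s * ip g u + t * ip g v := by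
  simp only [ip, Pi.add_apply, Pi.smul_apply, smul_eq_mul]
  ring

theorem cr_swap (u v : V) : cr u v = - cr v u := by
  funext i
  fin_cases i
  · change u 1 * v 2 - u 2 * v 1 = - (v 1 * u 2 - v 2 * u 1)
    ring
  · change u 2 * v 0 - u 0 * v 2 = - (v 2 * u 0 - v 0 * u 2)
    ring
  · change u 0 * v 1 - u 1 * v 0 = - (v 0 * u 1 - v 1 * u 0)
    ring

theorem cr_swap_ne {u v : V} (h : cr u v ≠ 0) : cr v u ≠ 0 := by
  intro h0
  apply h
  rw [cr_swap, h0, neg_zero]

/-- parallel vectors -/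
theorem par_smul {u v : V} (hv : v ≠ 0) (h : cr u v = 0) : ∃ t : ℝ, u = t • v := by
  have h0 := congrFun h 0
  have h1 := congrFun h 1
  have h2 := congrFun h 2
  simp only [cr, Matrix.cons_val_zero, Matrix.cons_val_one, Matrix.cons_val, Pi.zero_apply]
    at h0 h1 h2
  have h3 : v 0 ≠ 0 ∨ v 1 ≠ 0 ∨ v 2 ≠ 0 := by
    by_contra hcon
    push Not at hcon
    apply hv
    funext i
    fin_cases i
    · exact hcon.1
    · exact hcon.2.1
    · exact hcon.2.2
  rcases h3 with h3 | h3 | h3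
  · refine ⟨u 0 / v 0, ?_⟩
    funext i
    fin_cases i
    · change u 0 = u 0 / v 0 * v 0
      field_simp
    · change u 1 = u 0 / v 0 * v 1
      field_simp
      linear_combination (-1 : ℝ) * h2
    · change u 2 = u 0 / v 0 * v 2
      field_simp
      linear_combination h1
  · refine ⟨u 1 / v 1, ?_⟩
    funext i
    fin_cases i
    · change u 0 = u 1 / v 1 * v 0
      field_simp
      linear_combination h2
    · change u 1 = u 1 / v 1 * v 1
      field_simp
    · change u 2 = u 1 / v 1 * v 2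
      field_simp
      linear_combination (-1 : ℝ) * h0
  · refine ⟨u 2 / v 2, ?_⟩
    funext i
    fin_cases i
    · change u 0 = u 2 / v 2 * v 0
      field_simp
      linear_combination (-1 : ℝ) * h1
    · change u 1 = u 2 / v 2 * v 1
      field_simp
      linear_combination h0
    · change u 2 = u 2 / v 2 * v 2
      field_simp

/-- the maps are injective on `QQ` -/
theorem qq_inj {ι : Type} [Fintype ι] {a : ι → V} {c : Fin 10 → ℝ} {G : Type} [AddCommGroup G]
    {φ : V → G} {H : Finset G} (hC : Cnf a c G φ H) {i j : ι} (hi : i ∈ QQ a c φ H)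
    (hj : j ∈ QQ a c φ H) (h : φ (a i) = φ (a j)) : i = j := by
  rw [QQ, mem_filter] at hi hj
  by_contra hij
  exact hC.pi i j hij ((hC.grp.par _ _ hi.2.1 hj.2.1).1 h)

theorem cr_self (v : V) : cr v v = 0 := by
  funext i
  fin_cases i
  · change v 1 * v 2 - v 2 * v 1 = 0
    ring
  · change v 2 * v 0 - v 0 * v 2 = 0
    ring
  · change v 0 * v 1 - v 1 * v 0 = 0
    ring

/-- the tangent at `i` goes through `k` -/
theorem tan_k (bas : BasStmt) (tgv : TgvStmt) {ι : Type} [Fintype ι] {a : ι → V}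
    {c : Fin 10 → ℝ} {G : Type} [AddCommGroup G] {φ : V → G} {H : Finset G}
    (hC : Cnf a c G φ H) {i j k : ι} (hi : i ∈ QQ a c φ H) (hj : j ∈ QQ a c φ H) (hij : i ≠ j)
    (hφ : φ (a i) + φ (a i) + φ (a j) = 0) (hk : dt (a i) (a j) (a k) = 0) :
    ip (grd c (a i)) (a k) = 0 := by
  rw [QQ, mem_filter] at hi hj
  have h1 := tgv c G φ hC.grp (a i) (a j) hi.2.1 hj.2.1 hφ
  obtain ⟨s, t, hst⟩ := (bas.2.2.2.1 (a i) (a j) (a k) (hC.pi i j hij)).1 hk
  rw [hst, ip_comb, h1, ip_grd_self, hi.2.1.2.1]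
  ring

theorem dt_swap (u v w : V) : dt u v w = - dt v u w := by
  unfold dt
  ring

/-- LCZ -/
theorem lcz (bas : BasStmt) (ct6 : Ct6Stmt) (off : OffStmt) (tgv : TgvStmt) : LczStmt := by
  intro ι _ a c G _ φ H hC
  obtain ⟨-, h6b, h6c, -, h6e⟩ := ct6 ι a c G φ H hC
  have hoff := off ι a c G φ H hC
  have hln := (bas.2.2.2.2.2 ι a hC.pi).2.1
  have hQ : ∀ {i}, i ∈ QQ a c φ H → Ns c (a i) ∧ φ (a i) ∈ H := fun hi =>
    (mem_filter.1 hi).2
  -- the points of the missing elements
  have hpts : ∀ μ ∈ MM a c φ H, ∃ w, Ns c w ∧ φ w = μ := fun μ hμ =>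
    hC.pts μ (mem_filter.1 hμ).1
  choose! wm hwm hwm2 using hpts
  -- the three parts
  obtain ⟨F, hF⟩ : ∃ F : ι → G → Finset ι, F = fun k μ => (QQ a c φ H).filter
    fun i => dt (a k) (wm μ) (a i) = 0 := ⟨_, rfl⟩
  obtain ⟨A, hA⟩ : ∃ A : ι → Finset (ι × ι), A = fun k =>
    (MM a c φ H).biUnion fun μ => (F k μ).offDiag := ⟨_, rfl⟩
  obtain ⟨T, hT⟩ : ∃ T : ι → Finset (ι × ι), T = fun k =>
    (TANo a c φ H).filter fun p => ip (grd c (a p.1)) (a k) = 0 := ⟨_, rfl⟩
  obtain ⟨T', hT'⟩ : ∃ T' : ι → Finset (ι × ι), T' = fun k =>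
    (TANs a c φ H).filter fun p => ip (grd c (a p.2)) (a k) = 0 := ⟨_, rfl⟩
  obtain ⟨B, hB⟩ : ∃ B : Finset ι, B = univ.filter
    fun k => k ∉ QQ a c φ H ∧ cub c (a k) ≠ 0 := ⟨_, rfl⟩
  have hne0 : ∀ k ∈ B, a k ≠ 0 := by
    intro k hk h0
    rw [hB, mem_filter] at hk
    apply hk.2.2
    rw [h0]
    simp [cub]
  -- the cards
  have hAc : ∀ k ∈ B, (A k).card ≤ 2 * (MM a c φ H).card := by
    intro k hk
    rw [hA]
    refine (card_biUnion_le).trans ?_
    have h1 : ∀ μ ∈ MM a c φ H, ((F k μ).offDiag).card ≤ 2 := by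
      intro μ hμ
      have hk' := hk
      rw [hB, mem_filter] at hk'
      have hwm' := hwm μ hμ
      have h2 : (F k μ).card ≤ 2 := by
        rw [hF]
        apply h6c (wm μ) (a k) hwm'.2.1
        · intro h0
          obtain ⟨t, ht⟩ := par_smul hwm'.1 h0
          apply hk'.2.2
          rw [ht, cub_smul, hwm'.2.1, mul_zero]
        · intro i hi h0
          have h3 := (hC.grp.par _ _ (hQ hi).1 hwm').2 h0
          rw [hwm2 μ hμ] at h3
          exact (mem_filter.1 hμ).2 i hi h3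
      rw [offDiag_card]
      have h3 : (F k μ).card * (F k μ).card - (F k μ).card ≤ 2 := by
        interval_cases (F k μ).card <;> norm_num
      exact h3
    refine (sum_le_card_nsmul _ _ 2 h1).trans ?_
    rw [smul_eq_mul, mul_comm]
  have hTc : ∀ k ∈ B, (T k).card ≤ 6 := by
    intro k hk
    refine le_trans ?_ (h6b (a k) (hne0 k hk))
    rw [hT]
    apply card_le_card_of_injOn (fun p => p.1)
    · intro p hp
      rw [mem_coe, mem_filter] at hp
      rw [mem_coe, mem_filter]
      exact ⟨(mem_filter.1 hp.1).2.1, hp.2⟩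
    · intro p hp q hq hpq
      rw [mem_coe, mem_filter] at hp hq
      have hp1 := (mem_filter.1 hp.1).2
      have hq1 := (mem_filter.1 hq.1).2
      change p.1 = q.1 at hpq
      refine Prod.ext hpq (qq_inj hC hp1.2.1 hq1.2.1 ?_)
      have e1 := hp1.2.2.2
      have e2 := hq1.2.2.2
      rw [hpq, ← e2] at e1
      exact add_left_cancel e1
  have hTc' : ∀ k ∈ B, (T' k).card ≤ 6 := by
    intro k hk
    refine le_trans ?_ (h6b (a k) (hne0 k hk))
    rw [hT']
    apply card_le_card_of_injOn (fun p => p.2)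
    · intro p hp
      rw [mem_coe, mem_filter] at hp
      rw [mem_coe, mem_filter]
      exact ⟨(mem_filter.1 hp.1).2.2.1, hp.2⟩
    · intro p hp q hq hpq
      rw [mem_coe, mem_filter] at hp hq
      have hp1 := (mem_filter.1 hp.1).2
      have hq1 := (mem_filter.1 hq.1).2
      change p.2 = q.2 at hpq
      refine Prod.ext (qq_inj hC hp1.1 hq1.1 ?_) hpq
      have e1 := hp1.2.2.2
      have e2 := hq1.2.2.2
      rw [hpq, ← e2] at e1
      exact add_left_cancel e1
  -- the cover
  have hcov : ((MISo a c φ H ∪ TANo a c φ H ∪ TANs a c φ H).filter fun p =>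
      (ln a p.1 p.2).card = 3) ⊆ B.biUnion fun k => A k ∪ T k ∪ T' k := by
    intro p hp
    rw [mem_filter, mem_union, mem_union] at hp
    obtain ⟨hp1, hp3⟩ := hp
    have hpq : p.1 ∈ QQ a c φ H ∧ p.2 ∈ QQ a c φ H ∧ p.1 ≠ p.2 := by
      rcases hp1 with (h | h) | h
      · have := (mem_filter.1 h).2
        exact ⟨this.1, this.2.1, this.2.2.1⟩
      · have := (mem_filter.1 h).2
        exact ⟨this.1, this.2.1, this.2.2.1⟩
      · have := (mem_filter.1 h).2
        exact ⟨this.1, this.2.1, this.2.2.1⟩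
    obtain ⟨hi, hj, hij⟩ := hpq
    -- the third point
    obtain ⟨k, hk, hki, hkj⟩ : ∃ k ∈ ln a p.1 p.2, k ≠ p.1 ∧ k ≠ p.2 := by
      have h1 : ({p.1, p.2} : Finset ι) ⊂ ln a p.1 p.2 := by
        refine ⟨?_, ?_⟩
        · intro x hx
          rw [mem_insert, mem_singleton] at hx
          rcases hx with rfl | rfl
          · exact (hln _ _ hij).1
          · exact (hln _ _ hij).2
        · intro h
          have := card_le_card h
          rw [hp3, card_pair hij] at this
          omega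
      obtain ⟨k, hk, hk'⟩ := exists_of_ssubset h1
      rw [mem_insert, mem_singleton, not_or] at hk'
      exact ⟨k, hk, hk'⟩
    have hdt : dt (a p.1) (a p.2) (a k) = 0 := (mem_filter.1 hk).2
    have hkQ : k ∉ QQ a c φ H := by
      intro hkQ
      have h1 := (h6e p.1 hi p.2 hj k hkQ hij (Ne.symm hkj) hki).1 hk
      rcases hp1 with (h | h) | h
      · have h2 := (mem_filter.1 h).2.2.2.2
        have h3 := (mem_filter.1 h2).2 k hkQ
        apply h3
        have e : φ (a k) = -φ (a p.1) - φ (a p.2) + (φ (a p.1) + φ (a p.2) + φ (a k)) := by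
          abel
        rw [e, h1, add_zero]
      · have h2 := (mem_filter.1 h).2.2.2.2
        apply hki
        apply qq_inj hC hkQ hi
        have e : φ (a k) = φ (a p.1) + (φ (a p.1) + φ (a p.2) + φ (a k)) -
          (φ (a p.1) + φ (a p.1) + φ (a p.2)) := by abel
        rw [e, h1, h2, add_zero, sub_zero]
      · have h2 := (mem_filter.1 h).2.2.2.2
        apply hkj
        apply qq_inj hC hkQ hj
        have e : φ (a k) = φ (a p.2) + (φ (a p.1) + φ (a p.2) + φ (a k)) -
          (φ (a p.2) + φ (a p.2) + φ (a p.1)) := by abel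
        rw [e, h1, h2, add_zero, sub_zero]
    have hkc : cub c (a k) ≠ 0 := hoff p.1 hi p.2 hj hij k hkQ hk
    rw [mem_biUnion]
    refine ⟨k, by rw [hB, mem_filter]; exact ⟨mem_univ _, hkQ, hkc⟩, ?_⟩
    rw [mem_union, mem_union]
    rcases hp1 with (h | h) | h
    · left; left
      have hμ := (mem_filter.1 h).2.2.2.2
      rw [hA, mem_biUnion]
      refine ⟨_, hμ, ?_⟩
      obtain ⟨w, hw⟩ : ∃ w, w = wm (-φ (a p.1) - φ (a p.2)) := ⟨_, rfl⟩
      have hNw : Ns c w := by rw [hw]; exact hwm _ hμ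
      have hφw : φ w = -φ (a p.1) - φ (a p.2) := by rw [hw]; exact hwm2 _ hμ
      have hpw : ∀ i ∈ QQ a c φ H, cr (a i) w ≠ 0 := by
        intro i hi h0
        have h3 := (hC.grp.par _ _ (hQ hi).1 hNw).2 h0
        rw [hφw] at h3
        exact (mem_filter.1 hμ).2 i hi h3
      have hcol := (hC.grp.col (a p.1) (a p.2) w (hQ hi).1 (hQ hj).1 hNw (hC.pi _ _ hij)
        (hpw _ hj) (cr_swap_ne (hpw _ hi))).2 (by rw [hφw]; abel)
      -- `w` and `a k` are on the line
      have hcr := hC.pi _ _ hij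
      obtain ⟨s, t, hst⟩ := (bas.2.2.2.1 _ _ _ hcr).1 hcol
      obtain ⟨s', t', hst'⟩ := (bas.2.2.2.1 _ _ _ hcr).1 hdt
      rw [mem_offDiag, hF, mem_filter, mem_filter, ← hw]
      refine ⟨⟨hi, ?_⟩, ⟨hj, ?_⟩, hij⟩
      · rw [hst, hst']
        simp only [dt, Pi.add_apply, Pi.smul_apply, smul_eq_mul]
        ring
      · rw [hst, hst']
        simp only [dt, Pi.add_apply, Pi.smul_apply, smul_eq_mul]
        ring
    · left; right
      rw [hT, mem_filter]
      exact ⟨h, tan_k bas tgv hC hi hj hij (mem_filter.1 h).2.2.2.2 hdt⟩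
    · right
      rw [hT', mem_filter]
      refine ⟨h, tan_k bas tgv hC hj hi (Ne.symm hij) (mem_filter.1 h).2.2.2.2 ?_⟩
      rw [dt_swap, hdt, neg_zero]
  -- the count
  have hBc : B.card ≤ Fintype.card ι - (QQ a c φ H).card := by
    rw [← card_compl]
    apply card_le_card
    intro k hk
    rw [hB, mem_filter] at hk
    rw [mem_compl]
    exact hk.2.1
  calc _ ≤ (B.biUnion fun k => A k ∪ T k ∪ T' k).card := card_le_card hcov
    _ ≤ ∑ k ∈ B, (A k ∪ T k ∪ T' k).card := card_biUnion_le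
    _ ≤ ∑ _k ∈ B, (2 * (MM a c φ H).card + 12) := by
        apply sum_le_sum
        intro k hk
        have h1 := card_union_le (A k ∪ T k) (T' k)
        have h2 := card_union_le (A k) (T k)
        have h3 := hAc k hk
        have h4 := hTc k hk
        have h5 := hTc' k hk
        omega
    _ = B.card * (2 * (MM a c φ H).card + 12) := by rw [sum_const, smul_eq_mul]
    _ ≤ _ := Nat.mul_le_mul_right _ hBc

end Pool.Agent.GTO.H92
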