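import Pool.Agent.GTO.StmtsB

/-! Squad GTO, row TGV. -/

namespace Pool.Agent.GTO.H92

open Finset
open scoped Classical

/-- a linear form which vanishes at `w` vanishes at the multiples of `w` -/
theorem ip_par {g w v : V} (hw : w ≠ 0) (h : cr w v = 0) (hg : ip g w = 0) : ip g v = 0 := by
  have h0 := congrFun h 0
  have h1 := congrFun h 1
  have h2 := congrFun h 2
  simp only [cr, Matrix.cons_val_zero, Matrix.cons_val_one, Matrix.cons_val, Pi.zero_apply]
    at h0 h1 h2
  by_contra hne
  apply hw
  unfold ip at hg hne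
  funext i
  fin_cases i
  · change w 0 = 0
    have e : w 0 * (g 0 * v 0 + g 1 * v 1 + g 2 * v 2) = 0 := by
      linear_combination v 0 * hg + g 1 * h2 - g 2 * h1
    exact (mul_eq_zero.1 e).resolve_right hne
  · change w 1 = 0
    have e : w 1 * (g 0 * v 0 + g 1 * v 1 + g 2 * v 2) = 0 := by
      linear_combination v 1 * hg - g 0 * h2 + g 2 * h0
    exact (mul_eq_zero.1 e).resolve_right hne
  · change w 2 = 0
    have e : w 2 * (g 0 * v 0 + g 1 * v 1 + g 2 * v 2) = 0 := by
      linear_combination v 2 * hg + g 0 * h1 - g 1 * h0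
    exact (mul_eq_zero.1 e).resolve_right hne

/-- TGV -/
theorem tgv : TgvStmt := by
  intro c G _ φ hG u v hu hv huv
  obtain ⟨w, hw, hw0, hw1⟩ := hG.tangent u hu
  have h1 : φ w = φ v := by
    have h2 : φ u + φ u + φ w = φ u + φ u + φ v := by rw [hw1, huv]
    exact add_left_cancel h2
  exact ip_par hw.1 ((hG.par w v hw hv).1 h1) hw0

end Pool.Agent.GTO.H92
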